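import Pool.Agent.Run7.h146.Met.I1

set_option autoImplicit false

/-!
# Project Met (helper146), piece MAP: image of a Poisson process under a bijection
-/

open MeasureTheory Filter Topology ENNReal

namespace Run7.h300.Met

open Run7.h146.Met

open Classical in
/-- The piece MAP. -/
theorem t_MAP : S_PO1 → S_MAP := by
  intro hPO d ν _ e G hG
  have him : ∀ (n : ℕ) (y : Fin n → X d),
      (Finset.univ.image y).image e = Finset.univ.image fun i => e (y i) := by
    intro n y
    rw [Finset.image_image]
    rfl
  have hTM : TM (fun _ : Unit => G) := (hPO d ν).2.2.2 Unit G hG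
  have hTM2 : TM (fun (_ : Unit) (F : Finset (X d)) => G (F.image e)) := by
    intro n
    have h1 : Measurable fun p : Unit × (Fin n → X d) => ((p.1, fun i => e (p.2 i)) :
        Unit × (Fin n → X d)) := by
      refine measurable_fst.prodMk ?_
      exact measurable_pi_lambda _ fun i =>
        e.measurable.comp ((measurable_pi_apply i).comp measurable_snd)
    have h2 := (hTM n).comp h1
    convert h2 using 1
    funext p
    simp only [Function.comp]
    congr 1
    ext z
    simp
  have hmeas : Measurable fun F : Finset (X d) => G (F.image e) :=
    (hPO d ν).2.2.1 Unit _ hTM2 ()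
  refine ⟨hmeas, ?_⟩
  haveI : IsFiniteMeasure (ν.map e) := Measure.isFiniteMeasure_map ν e
  rw [(hPO d (ν.map e)).2.1 G hG, (hPO d ν).2.1 _ hmeas]
  have hu : (ν.map e) Set.univ = ν Set.univ := by
    rw [Measure.map_apply e.measurable MeasurableSet.univ, Set.preimage_univ]
  rw [hu]
  refine tsum_congr fun n => ?_
  congr 1
  have hpi : (Measure.pi fun _ : Fin n => ν.map e) =
      (Measure.pi fun _ : Fin n => ν).map fun y i => e (y i) := by
    haveI : ∀ i : Fin n, SigmaFinite ((fun _ : Fin n => ν.map e) i) := fun i =>
      inferInstanceAs (SigmaFinite (ν.map e))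
    exact (Measure.pi_map_pi (μ := fun _ : Fin n => ν) (f := fun _ => e)
      (fun _ => e.measurable.aemeasurable)).symm
  have hGn : Measurable fun y : Fin n → X d => G (Finset.univ.image y) := by
    have h2 : Measurable fun y : Fin n → X d => (((), y) : Unit × (Fin n → X d)) :=
      measurable_const.prodMk measurable_id
    have h3 := (hTM n).comp h2
    convert h3 using 1
    funext y
    simp only [Function.comp]
    congr 1
    ext z
    simp
  have hen : Measurable fun (y : Fin n → X d) (i : Fin n) => e (y i) :=
    measurable_pi_lambda _ fun i => e.measurable.comp (measurable_pi_apply i)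
  rw [hpi, lintegral_map hGn hen]
  refine lintegral_congr fun y => ?_
  rw [him]

end Run7.h300.Met
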